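import Pool.Agent.H578R2.Mach

/-!
There is an oracle relative to which `NP` does not have the shrinking property and yet some
disjoint NP-pair is NP-hard.

Idea. The oracle contains, for every pair `(φ₁, φ₀)` of NP statements (given by a string `t`)
exactly one of which is true, hidden codes telling which one is true: the code strings with tag
`(false, true)` say that `φ₁` is true, those with tag `(false, false)` say that `φ₀` is true. If
both statements are true, then the oracle may contain codes of at most one of the two kinds.
So `A = {t : some code with tag (false, true)}` and `B = {t : some code with tag (false, false)}`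
form a disjoint NP-pair, and every separator guides the prefix search for accepting paths.
The strings with tags `(true, _)` are free, and provide two NP sets which cannot be shrunk: if
two machines did shrink them in all oracles of this kind, then which of the machines accepts
`0 ^ n` would be a two-colouring of these oracles with certificates of polynomial size; by a
majority argument one obtains colourings whose certificates consist of shorter and shorter
strings, until only the free strings are left, and this is impossible.
-/

namespace Pool.Agent.Results.MP_58deb1_lc.OracleNoShrinking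

open Pool.Agent.H578R2

/-- Sanity check: `P` is contained in `NP`, relative to every oracle. -/
theorem sanity_P_subset_NP {O L : Set (List Bool)} (h : InP O L) : InNP O L := by
  obtain ⟨M, d, -, h⟩ := h
  exact ⟨M, d, h⟩

/-- There is an oracle `O` relative to which `NP` does not have the shrinking property and some
disjoint NP-pair is NP-hard. -/
theorem result : ∃ O : Set (List Bool), ¬ Shrinking O ∧
    ∃ A B : Set (List Bool), DisjointNPPair O A B ∧ NPHardPair O A B := by
  obtain ⟨O, hO, hshr⟩ := exists_oracle loc_phi
    (fun e t O => ∃ w, Acc (Nat.unpair e).1 t w O) (fun e t O => ∃ w, Acc (Nat.unpair e).2 t w O)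
    (fun e => ⟨fun n => (n + tb (Nat.unpair e).1 n) + (n + tb (Nat.unpair e).2 n),
      (PB.id.add (PB.tb _)).add (PB.id.add (PB.tb _)), by
        intro t O h
        obtain ⟨Q, h1, h2, h3⟩ := PLoc_acc _ t O h
        exact ⟨Q, h1.trans (Nat.le_add_right _ _), fun s hs => (h2 s hs).trans
          (Nat.le_add_right _ _), h3⟩, by
        intro t O h
        obtain ⟨Q, h1, h2, h3⟩ := PLoc_acc _ t O h
        exact ⟨Q, h1.trans (Nat.le_add_left _ _), fun s hs => (h2 s hs).trans
          (Nat.le_add_left _ _), h3⟩⟩)
  refine ⟨O, ?_, {t | Has (false, true) t O}, {t | Has (false, false) t O},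
    ⟨has_inNP _ O, has_inNP _ O, ?_, ?_, ?_⟩, ?_⟩
  · intro hs
    obtain ⟨A', B', hA', hB', hA, hB, hdis, hun⟩ := hs {t | Has (true, false) t O}
      {t | Has (true, true) t O} (has_inNP _ O) (has_inNP _ O)
    obtain ⟨i, hi⟩ := hA'.exists_index
    obtain ⟨j, hj⟩ := hB'.exists_index
    obtain ⟨t, ht⟩ := hshr (Nat.pair i j)
    apply ht
    simp only [Nat.unpair_pair]
    refine ⟨fun h => hA ((hi t).2 h), fun h => hB ((hj t).2 h), ?_, ?_⟩
    · rintro ⟨h1, h2⟩
      have : t ∈ A' ∩ B' := ⟨(hi t).2 h1, (hj t).2 h2⟩
      rw [hdis] at this
      exact this
    · intro h
      have : t ∈ A' ∪ B' := by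
        rw [hun]
        exact h
      rcases this with h1 | h1
      · exact Or.inl ((hi t).1 h1)
      · exact Or.inr ((hj t).1 h1)
  · -- a true stop statement
    refine ⟨encT 0 [] (List.replicate (2 * (pad 0 [] + tb 0 0)) false), ?_⟩
    refine (hO _).2.2 true ?_ ?_
    · rw [phi_encT, Psi, List.length_replicate]
      left
      refine ⟨by omega, ?_⟩
      simp only [true_iff, List.length_nil]
      omega
    · rw [phi_encT, Psi, List.length_replicate]
      rintro (⟨-, h⟩ | h | h)
      · simp only [Bool.not_true, Bool.false_eq_true, false_iff, List.length_nil] at h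
        omega
      · omega
      · omega
  · -- a false stop statement
    have hp : 0 < pad 0 [true] := by
      rw [pad, List.length_singleton]
      exact Nat.pow_pos (by omega)
    refine ⟨encT 0 [true] [], ?_⟩
    refine (hO _).2.2 false ?_ ?_
    · rw [phi_encT, Psi, List.length_nil]
      left
      refine ⟨by omega, ?_⟩
      simp only [Bool.false_eq_true, false_iff]
      omega
    · rw [phi_encT, Psi, List.length_nil]
      rintro (⟨-, h⟩ | h | h)
      · simp only [Bool.not_false, true_iff] at h
        omega
      · omega
      · omega
  · ext t
    refine iff_of_false ?_ (Set.notMem_empty t)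
    exact (hO t).2.1
  · intro L hL T hT
    refine ⟨L, ⟨subset_rfl, Set.compl_inter_self L⟩, ?_⟩
    refine search_inP hO (fun t ht => hT.1 ht) (fun t ht htT => ?_) hL
    have : t ∈ {t | Has (false, false) t O} ∩ T := ⟨ht, htT⟩
    rw [hT.2] at this
    exact this

end Pool.Agent.Results.MP_58deb1_lc.OracleNoShrinking
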